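import Pool.Agent.Helper68.AF.Core
import Pool.Agent.Helper8.AF.Five
import Pool.Agent.Helper35.AF.FormInt
import Pool.Agent.Helper44.AF.Good

/-! Project AF (MP_9ee088_an), block CORE: the statement. -/

set_option autoImplicit false
open MeasureTheory Real Set Filter
open scoped ENNReal

namespace Pool.Agent.Helper68.AF

open Pool.Agent.Helper95.AF

/-- **CORE**: five noise steps followed by a free block -/
theorem core : ∃ C : ℝ, 1 ≤ C ∧ ∀ (a ρ p δ r : ℝ) (n m : ℕ) (b : ℕ → ℝ) (q : ℝ × ℝ), 1 ≤ |a| → 0 < ρ → ρ ≤ 1 →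
    0 < p → p ≤ 1 / 4 → 0 ≤ r → 0 ≤ δ → δ ≤ Real.exp (-(p * r)) → Den a (shb b (m + 5)) n ρ δ r →
    ∫⁻ t, ip p (nv ((pM a (up5 b m (ρ / (10 * (|a| + 1)) ^ 5) t) (m + 5 + n) q).mulVec ![1, 0])) ∂un5 ≤
      ENNReal.ofReal (C * (|a| + 1) ^ 26 * (C / ρ) ^ (12 * p) * Real.exp (-(p * r))) *
        ip p (nv ((pM a b m q).mulVec ![1, 0])) := by
  refine core_of Pool.Agent.Helper35.AF.form_int ?_ ?_
  · intro a ρ m b q _ h0 _
    obtain ⟨c, κ, h⟩ := Pool.Agent.Helper8.AF.five (a := a) (ρ := ρ) h0 rfl b m q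
    refine ⟨c, κ, fun Φ hΦ => ?_⟩
    have h1 := h (Φ := fun u => Φ u.1 u.2.1 u.2.2.1 u.2.2.2) hΦ
    refine h1.trans (le_of_eq ?_)
    have hA : (0 : ℝ) < 10 * (|a| + 1) := by positivity
    rw [← ENNReal.ofReal_pow (by positivity)]
    congr 2
    field_simp
  · intro a ρ p δ r n c c₀ h0 hp hr hδ hδ1 hD
    exact Pool.Agent.Helper44.AF.good_int h0 hp hr hδ hδ1 hD c₀

end Pool.Agent.Helper68.AF
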