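import Pool.Agent.Helper95.AF.Defs

/-! Project AF (MP_9ee088_an), block CORE: five noise steps followed by a free block. -/

set_option autoImplicit false
open MeasureTheory Real Set Filter
open scoped ENNReal

namespace Pool.Agent.Helper68.AF

open Pool.Agent.Helper18.UC (nn LL sqo rep toT)
open Pool.Agent.Helper46.QP (TT Td)
open Pool.Agent.Helper95.AF

/-! ### orbits -/

theorem po_congr68 {a : ℝ} {b b' : ℕ → ℝ} {n : ℕ} (h : ∀ j < n, b j = b' j) (q : ℝ × ℝ) : po a b n q = po a b' n q := by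
  induction n with
  | zero => rfl
  | succ n ih =>
    show st a (b n) (po a b n q) = st a (b' n) (po a b' n q)
    rw [ih fun j hj => h j (by omega), h n (by omega)]

theorem pM_congr68 {a : ℝ} {b b' : ℕ → ℝ} {n : ℕ} (h : ∀ j < n, b j = b' j) (q : ℝ × ℝ) : pM a b n q = pM a b' n q := by
  induction n with
  | zero => rfl
  | succ n ih =>
    show mt a (po a b n q).1 * pM a b n q = mt a (po a b' n q).1 * pM a b' n q
    rw [ih fun j hj => h j (by omega), po_congr68 (n := n) (fun j hj => h j (by omega))]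

theorem po_add68 (a : ℝ) (b : ℕ → ℝ) (m n : ℕ) (q : ℝ × ℝ) : po a b (m + n) q = po a (shb b m) n (po a b m q) := by
  induction n with
  | zero => rfl
  | succ n ih =>
    show st a (b (m + n)) (po a b (m + n) q) = st a (shb b m n) (po a (shb b m) n (po a b m q))
    rw [ih]
    show st a (b (m + n)) _ = st a (b (n + m)) _
    rw [add_comm m n]

theorem pM_add68 (a : ℝ) (b : ℕ → ℝ) (m n : ℕ) (q : ℝ × ℝ) :
    pM a b (m + n) q = pM a (shb b m) n (po a b m q) * pM a b m q := by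
  induction n with
  | zero => show pM a b m q = 1 * pM a b m q; rw [one_mul]
  | succ n ih =>
    show mt a (po a b (m + n) q).1 * pM a b (m + n) q =
      mt a (po a (shb b m) n (po a b m q)).1 * pM a (shb b m) n (po a b m q) * pM a b m q
    rw [ih, po_add68, mul_assoc]

theorem det_pM68 (a : ℝ) (b : ℕ → ℝ) (n : ℕ) (q : ℝ × ℝ) : (pM a b n q).det = 1 := by
  induction n with
  | zero => exact Matrix.det_one
  | succ n ih =>
    show (mt a (po a b n q).1 * pM a b n q).det = 1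
    rw [Matrix.det_mul, ih, mul_one]
    unfold Pool.Agent.Helper95.AF.mt
    rw [Matrix.det_fin_two]
    simp

theorem up5_out68 {b : ℕ → ℝ} {m : ℕ} {s : ℝ} {t : Fin 5 → ℝ} {j : ℕ} (h : j < m ∨ m + 5 ≤ j) : up5 b m s t j = b j := by
  unfold up5
  rw [dif_neg (by omega), add_zero]

/-- the cocycle splits -/
theorem split68 (a : ℝ) (b : ℕ → ℝ) (m n : ℕ) (s : ℝ) (t : Fin 5 → ℝ) (q : ℝ × ℝ) :
    pM a (up5 b m s t) (m + 5 + n) q =
      pM a (shb b (m + 5)) n (po a (up5 b m s t) (m + 5) q) *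
        (mt a (po a (up5 b m s t) (m + 4) q).1 * (mt a (po a (up5 b m s t) (m + 3) q).1 *
          (mt a (po a (up5 b m s t) (m + 2) q).1 * (mt a (po a (up5 b m s t) (m + 1) q).1 *
            (mt a (po a b m q).1 * pM a b m q))))) := by
  rw [pM_add68]
  have e1 : pM a (shb (up5 b m s t) (m + 5)) n (po a (up5 b m s t) (m + 5) q) =
      pM a (shb b (m + 5)) n (po a (up5 b m s t) (m + 5) q) := by
    refine pM_congr68 (fun j _ => ?_) _
    exact up5_out68 (Or.inr (by omega))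
  have e2 : pM a (up5 b m s t) m q = pM a b m q := pM_congr68 (fun j hj => up5_out68 (Or.inl hj)) _
  have e3 : po a (up5 b m s t) m q = po a b m q := po_congr68 (fun j hj => up5_out68 (Or.inl hj)) _
  have e4 : pM a (up5 b m s t) (m + 5) q = mt a (po a (up5 b m s t) (m + 4) q).1 * (mt a (po a (up5 b m s t) (m + 3) q).1 *
      (mt a (po a (up5 b m s t) (m + 2) q).1 * (mt a (po a (up5 b m s t) (m + 1) q).1 *
        (mt a (po a (up5 b m s t) m q).1 * pM a (up5 b m s t) m q)))) := rfl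
  rw [e1, e4, e2, e3]

/-! ### vectors -/

theorem nv_nonneg68 (V : Fin 2 → ℝ) : 0 ≤ nv V := add_nonneg (abs_nonneg _) (abs_nonneg _)

theorem mt_nv68 (a x : ℝ) (V : Fin 2 → ℝ) : nv V ≤ 7 * (|a| + 1) * nv ((mt a x).mulVec V) := by
  have hπ := Real.pi_lt_d2
  have hπ0 := Real.pi_pos
  set e : ℝ := 2 + 2 * π * a * Real.cos (2 * π * x) with he
  have he1 : |e| ≤ 2 + 2 * π * |a| := by
    rw [he]
    refine (abs_add_le _ _).trans ?_
    rw [abs_of_pos (by norm_num : (0:ℝ) < 2), abs_mul, abs_mul, abs_of_pos (by positivity : 0 < 2 * π)]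
    have h1 := Real.abs_cos_le_one (2 * π * x)
    have h2 : 2 * π * |a| * |Real.cos (2 * π * x)| ≤ 2 * π * |a| * 1 := by gcongr
    linarith
  have e1 : (mt a x).mulVec V 0 = e * V 0 - V 1 := by
    unfold Pool.Agent.Helper95.AF.mt
    simp [Matrix.mulVec, dotProduct, Fin.sum_univ_two]
    ring
  have e2 : (mt a x).mulVec V 1 = V 0 := by
    unfold Pool.Agent.Helper95.AF.mt
    simp [Matrix.mulVec, dotProduct, Fin.sum_univ_two]
  unfold nv
  rw [e1, e2]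
  have h3 : |V 1| ≤ |e * V 0 - V 1| + |e| * |V 0| := by
    rw [← abs_mul]
    have := abs_sub_abs_le_abs_sub (e * V 0 - (e * V 0 - V 1)) 0
    have h4 : V 1 = e * V 0 - (e * V 0 - V 1) := by ring
    calc |V 1| = |e * V 0 - (e * V 0 - V 1)| := by rw [← h4]
      _ ≤ |e * V 0| + |e * V 0 - V 1| := abs_sub _ _
      _ = _ := add_comm _ _
  have h5 : |e| * |V 0| ≤ (2 + 2 * π * |a|) * |V 0| := mul_le_mul_of_nonneg_right he1 (abs_nonneg _)
  have h6 : (2 + 2 * π * |a|) ≤ 7 * (|a| + 1) - 1 := by nlinarith [abs_nonneg a]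
  have h7 : (2 + 2 * π * |a|) * |V 0| ≤ (7 * (|a| + 1) - 1) * |V 0| := mul_le_mul_of_nonneg_right h6 (abs_nonneg _)
  have h8 : |e * V 0 - V 1| ≤ 7 * (|a| + 1) * |e * V 0 - V 1| := by
    nlinarith [abs_nonneg a, abs_nonneg (e * V 0 - V 1), mul_nonneg (abs_nonneg a) (abs_nonneg (e * V 0 - V 1))]
  nlinarith

/-- row `i` of the matrix `B * mt a x` -/
noncomputable def row68 (a : ℝ) (B : Matrix (Fin 2) (Fin 2) ℝ) (x : ℝ) (i j : Fin 2) : ℝ := (B * mt a x) i j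

theorem row_big68 (a : ℝ) (B : Matrix (Fin 2) (Fin 2) ℝ) (x : ℝ) :
    nn B ≤ 14 * (|a| + 1) * nv (row68 a B x 0) ∨ nn B ≤ 14 * (|a| + 1) * nv (row68 a B x 1) := by
  have hπ := Real.pi_lt_d2
  have hπ0 := Real.pi_pos
  set e : ℝ := 2 + 2 * π * a * Real.cos (2 * π * x) with he
  have he1 : |e| ≤ 2 + 2 * π * |a| := by
    rw [he]
    refine (abs_add_le _ _).trans ?_
    rw [abs_of_pos (by norm_num : (0:ℝ) < 2), abs_mul, abs_mul, abs_of_pos (by positivity : 0 < 2 * π)]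
    have h1 := Real.abs_cos_le_one (2 * π * x)
    have h2 : 2 * π * |a| * |Real.cos (2 * π * x)| ≤ 2 * π * |a| * 1 := by gcongr
    linarith
  have h6 : (2 + 2 * π * |a|) ≤ 7 * (|a| + 1) - 1 := by nlinarith [abs_nonneg a]
  have hrow : ∀ i : Fin 2, |B i 0| + |B i 1| ≤ 7 * (|a| + 1) * nv (row68 a B x i) := by
    intro i
    have e1 : row68 a B x i 0 = B i 0 * e + B i 1 := by
      unfold row68 Pool.Agent.Helper95.AF.mt
      simp [Matrix.mul_apply, Fin.sum_univ_two]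
      exact Or.inl rfl
    have e2 : row68 a B x i 1 = -B i 0 := by
      unfold row68 Pool.Agent.Helper95.AF.mt
      simp [Matrix.mul_apply, Fin.sum_univ_two]
    unfold nv
    rw [e1, e2, abs_neg]
    have h3 : |B i 1| ≤ |B i 0 * e + B i 1| + |B i 0| * |e| := by
      rw [← abs_mul]
      have h4 : B i 1 = (B i 0 * e + B i 1) - B i 0 * e := by ring
      calc |B i 1| = |(B i 0 * e + B i 1) - B i 0 * e| := by rw [← h4]
        _ ≤ |B i 0 * e + B i 1| + |B i 0 * e| := abs_sub _ _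
    have h5 : |B i 0| * |e| ≤ |B i 0| * (2 + 2 * π * |a|) := mul_le_mul_of_nonneg_left he1 (abs_nonneg _)
    have h7 : |B i 0| * (2 + 2 * π * |a|) ≤ |B i 0| * (7 * (|a| + 1) - 1) := mul_le_mul_of_nonneg_left h6 (abs_nonneg _)
    have h8 : |B i 0 * e + B i 1| ≤ 7 * (|a| + 1) * |B i 0 * e + B i 1| := by
      nlinarith [abs_nonneg a, abs_nonneg (B i 0 * e + B i 1), mul_nonneg (abs_nonneg a) (abs_nonneg (B i 0 * e + B i 1))]
    nlinarith
  have h0 := hrow 0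
  have h1 := hrow 1
  unfold nn
  by_cases h : |B 1 0| + |B 1 1| ≤ |B 0 0| + |B 0 1|
  · left
    linarith
  · right
    linarith

/-! ### `ip` -/

theorem ip_anti68 {p x y : ℝ} (hp : 0 ≤ p) (h : x ≤ y) : ip p y ≤ ip p x := by
  unfold ip
  rw [ENNReal.rpow_neg, ENNReal.rpow_neg]
  exact ENNReal.inv_le_inv.2 (ENNReal.rpow_le_rpow (ENNReal.ofReal_le_ofReal h) hp)

theorem ip_mul68 {p x y : ℝ} (hx : 0 ≤ x) : ip p (x * y) = ip p x * ip p y := by
  unfold ip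
  rw [ENNReal.ofReal_mul hx, ENNReal.mul_rpow_of_ne_top ENNReal.ofReal_ne_top ENNReal.ofReal_ne_top]

theorem ip_inv68 {p c : ℝ} (hc : 0 < c) : ip p c⁻¹ = ENNReal.ofReal (c ^ p) := by
  unfold ip
  rw [ENNReal.ofReal_rpow_of_pos (inv_pos.2 hc), Real.inv_rpow hc.le, Real.rpow_neg hc.le, inv_inv]

/-- `x ≤ c y` -/
theorem ip_le68 {p c x y : ℝ} (hp : 0 ≤ p) (hc : 0 < c) (h : x ≤ c * y) : ip p y ≤ ENNReal.ofReal (c ^ p) * ip p x := by
  have h1 : c⁻¹ * x ≤ y := by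
    rw [inv_mul_le_iff₀ hc]
    exact h
  calc ip p y ≤ ip p (c⁻¹ * x) := ip_anti68 hp h1
    _ = _ := by rw [ip_mul68 (inv_nonneg.2 hc.le), ip_inv68 hc]

theorem ip_meas68 (p : ℝ) : Measurable (ip p) := by
  unfold ip
  fun_prop

/-! ### continuity -/

theorem po_cont68 (a : ℝ) (b : ℕ → ℝ) (n : ℕ) : Continuous (po a b n) := by
  induction n with
  | zero => exact continuous_id
  | succ n ih =>
    show Continuous fun q => st a (b n) (po a b n q)
    unfold st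
    fun_prop

theorem mt_cont68 (a : ℝ) : Continuous (mt a) := by
  unfold Pool.Agent.Helper95.AF.mt
  refine continuous_matrix fun i j => ?_
  fin_cases i <;> fin_cases j <;> simp <;> fun_prop

theorem pM_cont68 (a : ℝ) (b : ℕ → ℝ) (n : ℕ) : Continuous (pM a b n) := by
  induction n with
  | zero => exact continuous_const
  | succ n ih =>
    show Continuous fun q => mt a (po a b n q).1 * pM a b n q
    exact ((mt_cont68 a).comp (continuous_fst.comp (po_cont68 a b n))).matrix_mul ih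

/-- the chosen row -/
noncomputable def W68 (a : ℝ) (b : ℕ → ℝ) (n : ℕ) (w : ℝ × ℝ) (j : Fin 2) : ℝ :=
  if nv (row68 a (pM a b n w) w.2 1) ≤ nv (row68 a (pM a b n w) w.2 0) then row68 a (pM a b n w) w.2 0 j
  else row68 a (pM a b n w) w.2 1 j

theorem W_big68 (a : ℝ) (b : ℕ → ℝ) (n : ℕ) (w : ℝ × ℝ) : nn (pM a b n w) ≤ 14 * (|a| + 1) * nv (W68 a b n w) := by
  have hc : 0 ≤ 14 * (|a| + 1) := by positivity
  by_cases h : nv (row68 a (pM a b n w) w.2 1) ≤ nv (row68 a (pM a b n w) w.2 0)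
  · have e : W68 a b n w = row68 a (pM a b n w) w.2 0 := by
      funext j
      exact if_pos h
    rw [e]
    rcases row_big68 a (pM a b n w) w.2 with h1 | h1
    · exact h1
    · exact h1.trans (mul_le_mul_of_nonneg_left h hc)
  · have e : W68 a b n w = row68 a (pM a b n w) w.2 1 := by
      funext j
      exact if_neg h
    rw [e]
    rcases row_big68 a (pM a b n w) w.2 with h1 | h1
    · exact h1.trans (mul_le_mul_of_nonneg_left (not_le.1 h).le hc)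
    · exact h1

theorem row_cont68 (a : ℝ) (b : ℕ → ℝ) (n : ℕ) (i j : Fin 2) :
    Continuous fun w : ℝ × ℝ => row68 a (pM a b n w) w.2 i j := by
  unfold row68
  have h : Continuous fun w : ℝ × ℝ => pM a b n w * mt a w.2 :=
    (pM_cont68 a b n).matrix_mul ((mt_cont68 a).comp continuous_snd)
  exact h.matrix_elem i j

theorem W_meas68 (a : ℝ) (b : ℕ → ℝ) (n : ℕ) (j : Fin 2) : Measurable fun w : ℝ × ℝ => W68 a b n w j := by
  unfold W68
  have h : ∀ i : Fin 2, Measurable fun w : ℝ × ℝ => nv (row68 a (pM a b n w) w.2 i) := by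
    intro i
    unfold nv
    exact ((row_cont68 a b n i 0).abs.add (row_cont68 a b n i 1).abs).measurable
  exact Measurable.ite (measurableSet_le (h 1) (h 0)) (row_cont68 a b n 0 j).measurable (row_cont68 a b n 1 j).measurable

/-- the form of three matrices -/
noncomputable def Ph68 (p a : ℝ) (b : ℕ → ℝ) (n : ℕ) (V : Fin 2 → ℝ) (x1 x2 x3 : ℝ) (w : ℝ × ℝ) : ℝ≥0∞ :=
  ip p |∑ i, W68 a b n w i * ((mt a x3 * mt a x2 * mt a x1).mulVec V) i|

theorem Ph_meas68 (p a : ℝ) (b : ℕ → ℝ) (n : ℕ) (V : Fin 2 → ℝ) :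
    Measurable fun u : ℝ × ℝ × ℝ × (ℝ × ℝ) => Ph68 p a b n V u.1 u.2.1 u.2.2.1 u.2.2.2 := by
  unfold Ph68
  refine (ip_meas68 p).comp ?_
  have hM : Continuous fun u : ℝ × ℝ × ℝ × (ℝ × ℝ) => (mt a u.2.2.1 * mt a u.2.1 * mt a u.1).mulVec V := by
    have h3 : Continuous fun u : ℝ × ℝ × ℝ × (ℝ × ℝ) => mt a u.2.2.1 := (mt_cont68 a).comp (by fun_prop)
    have h2 : Continuous fun u : ℝ × ℝ × ℝ × (ℝ × ℝ) => mt a u.2.1 := (mt_cont68 a).comp (by fun_prop)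
    have h1 : Continuous fun u : ℝ × ℝ × ℝ × (ℝ × ℝ) => mt a u.1 := (mt_cont68 a).comp (by fun_prop)
    exact ((h3.matrix_mul h2).matrix_mul h1).matrix_mulVec continuous_const
  have hW : ∀ i : Fin 2, Measurable fun u : ℝ × ℝ × ℝ × (ℝ × ℝ) => W68 a b n u.2.2.2 i := fun i =>
    (W_meas68 a b n i).comp (by fun_prop)
  have hs : Measurable fun u : ℝ × ℝ × ℝ × (ℝ × ℝ) =>
      ∑ i, W68 a b n u.2.2.2 i * ((mt a u.2.2.1 * mt a u.2.1 * mt a u.1).mulVec V) i :=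
    Finset.measurable_sum _ fun i _ => (hW i).mul ((continuous_apply i).comp hM).measurable
  exact hs.norm

/-- the vector is at least the form -/
theorem vec68 (p a : ℝ) (hp : 0 ≤ p) (b : ℕ → ℝ) (n : ℕ) (P : Matrix (Fin 2) (Fin 2) ℝ) (x0 x1 x2 x3 : ℝ) (w : ℝ × ℝ) :
    ip p (nv ((pM a b n w * (mt a w.2 * (mt a x3 * (mt a x2 * (mt a x1 * (mt a x0 * P)))))).mulVec ![1, 0])) ≤
      Ph68 p a b n ((mt a x0 * P).mulVec ![1, 0]) x1 x2 x3 w := by
  unfold Ph68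
  refine ip_anti68 hp ?_
  have e : (pM a b n w * (mt a w.2 * (mt a x3 * (mt a x2 * (mt a x1 * (mt a x0 * P)))))).mulVec ![1, 0] =
      (pM a b n w * mt a w.2).mulVec ((mt a x3 * mt a x2 * mt a x1).mulVec ((mt a x0 * P).mulVec ![1, 0])) := by
    simp only [Matrix.mulVec_mulVec, mul_assoc]
  rw [e]
  set U := (mt a x3 * mt a x2 * mt a x1).mulVec ((mt a x0 * P).mulVec ![1, 0])
  have hi : ∀ i : Fin 2, |∑ j, row68 a (pM a b n w) w.2 i j * U j| ≤ nv ((pM a b n w * mt a w.2).mulVec U) := by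
    intro i
    have h1 : ∑ j, row68 a (pM a b n w) w.2 i j * U j = ((pM a b n w * mt a w.2).mulVec U) i := rfl
    rw [h1]
    unfold nv
    fin_cases i
    · exact le_add_of_nonneg_right (abs_nonneg _)
    · exact le_add_of_nonneg_left (abs_nonneg _)
  by_cases h : nv (row68 a (pM a b n w) w.2 1) ≤ nv (row68 a (pM a b n w) w.2 0)
  · have e1 : ∀ j, W68 a b n w j = row68 a (pM a b n w) w.2 0 j := fun j => if_pos h
    simp only [e1]
    exact hi 0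
  · have e1 : ∀ j, W68 a b n w j = row68 a (pM a b n w) w.2 1 j := fun j => if_neg h
    simp only [e1]
    exact hi 1

/-- **CORE**, with the blocks of others as hypotheses -/
theorem core_of
    (form_int : ∃ K : ℝ, 1 ≤ K ∧ ∀ (a R p : ℝ) (c : Fin 3 → ℝ) (W V : Fin 2 → ℝ), 1 ≤ |a| → 0 < R → R ≤ 1 / 2 →
      0 < p → p ≤ 1 / 4 →
      ∫⁻ x₁ in Icc (c 0 - R) (c 0 + R), ∫⁻ x₂ in Icc (c 1 - R) (c 1 + R), ∫⁻ x₃ in Icc (c 2 - R) (c 2 + R),
        ip p |∑ i, W i * ((mt a x₃ * mt a x₂ * mt a x₁).mulVec V) i| ≤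
        ENNReal.ofReal ((2 * R) ^ 3 * (K / R) ^ (12 * p)) * ip p (nv W * nv V))
    (five : ∀ (a ρ : ℝ) (m : ℕ) (b : ℕ → ℝ) (q : ℝ × ℝ), 1 ≤ |a| → 0 < ρ → ρ ≤ 1 → ∃ (c : Fin 3 → ℝ) (c₀ : ℝ × ℝ),
      ∀ Φ : ℝ → ℝ → ℝ → ℝ × ℝ → ℝ≥0∞, Measurable (fun u : ℝ × ℝ × ℝ × (ℝ × ℝ) => Φ u.1 u.2.1 u.2.2.1 u.2.2.2) →
      ∫⁻ t, Φ (po a (up5 b m (ρ / (10 * (|a| + 1)) ^ 5) t) (m + 1) q).1
        (po a (up5 b m (ρ / (10 * (|a| + 1)) ^ 5) t) (m + 2) q).1
        (po a (up5 b m (ρ / (10 * (|a| + 1)) ^ 5) t) (m + 3) q).1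
        (po a (up5 b m (ρ / (10 * (|a| + 1)) ^ 5) t) (m + 5) q) ∂un5 ≤
      ENNReal.ofReal ((10 * (|a| + 1)) ^ 25 / ρ ^ 5) * ∫⁻ w in sqo c₀ ρ, ∫⁻ x₁ in Icc (c 0 - ρ / 2) (c 0 + ρ / 2),
        ∫⁻ x₂ in Icc (c 1 - ρ / 2) (c 1 + ρ / 2), ∫⁻ x₃ in Icc (c 2 - ρ / 2) (c 2 + ρ / 2), Φ x₁ x₂ x₃ w)
    (good : ∀ (a ρ p δ r : ℝ) (n : ℕ) (c : ℕ → ℝ) (c₀ : ℝ × ℝ), 0 < ρ → 0 < p → 0 ≤ r → 0 ≤ δ →
      δ ≤ Real.exp (-(p * r)) → Den a c n ρ δ r →
      ∫⁻ z in sqo c₀ ρ, ip p (nn (pM a c n z)) ≤ ENNReal.ofReal (2 * ρ ^ 2 * Real.exp (-(p * r)))) :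
    ∃ C : ℝ, 1 ≤ C ∧ ∀ (a ρ p δ r : ℝ) (n m : ℕ) (b : ℕ → ℝ) (q : ℝ × ℝ), 1 ≤ |a| → 0 < ρ → ρ ≤ 1 →
    0 < p → p ≤ 1 / 4 → 0 ≤ r → 0 ≤ δ → δ ≤ Real.exp (-(p * r)) → Den a (shb b (m + 5)) n ρ δ r →
    ∫⁻ t, ip p (nv ((pM a (up5 b m (ρ / (10 * (|a| + 1)) ^ 5) t) (m + 5 + n) q).mulVec ![1, 0])) ∂un5 ≤
      ENNReal.ofReal (C * (|a| + 1) ^ 26 * (C / ρ) ^ (12 * p) * Real.exp (-(p * r))) *
        ip p (nv ((pM a b m q).mulVec ![1, 0])) := by
  obtain ⟨K, hK1, hK⟩ := form_int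
  refine ⟨max (10 ^ 25 * 196) (2 * K), le_max_of_le_left (by norm_num), ?_⟩
  intro a ρ p δ r n m b q ha h0 h1 hp hp4 hr hδ hδ1 hDen
  set C : ℝ := max (10 ^ 25 * 196) (2 * K) with hC
  have hC1 : 10 ^ 25 * 196 ≤ C := le_max_left _ _
  have hC2 : 2 * K ≤ C := le_max_right _ _
  have ha0 : 0 ≤ |a| := abs_nonneg a
  set A : ℝ := |a| + 1 with hA
  have hA2 : 2 ≤ A := by linarith
  obtain ⟨c, c₀, hfive⟩ := five a ρ m b q ha h0 h1
  set s : ℝ := ρ / (10 * A) ^ 5 with hs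
  set P := pM a b m q with hP
  set x0 := (po a b m q).1 with hx0
  set V := (mt a x0 * P).mulVec ![1, 0] with hV
  set V0 := P.mulVec ![1, 0] with hV0
  have hVV : nv V0 ≤ 7 * A * nv V := by
    have h2 := mt_nv68 a x0 V0
    rw [hV0, Matrix.mulVec_mulVec, ← hV, ← hV0] at h2
    exact h2
  -- pointwise
  have hpt : ∀ t, ip p (nv ((pM a (up5 b m s t) (m + 5 + n) q).mulVec ![1, 0])) ≤
      Ph68 p a (shb b (m + 5)) n V (po a (up5 b m s t) (m + 1) q).1 (po a (up5 b m s t) (m + 2) q).1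
        (po a (up5 b m s t) (m + 3) q).1 (po a (up5 b m s t) (m + 5) q) := by
    intro t
    rw [split68]
    have h3 : (po a (up5 b m s t) (m + 4) q).1 = (po a (up5 b m s t) (m + 5) q).2 := rfl
    rw [h3]
    exact vec68 p a hp.le (shb b (m + 5)) n P x0 _ _ _ _
  -- inner integrals
  have hin : ∀ w : ℝ × ℝ, ∫⁻ x₁ in Icc (c 0 - ρ / 2) (c 0 + ρ / 2), ∫⁻ x₂ in Icc (c 1 - ρ / 2) (c 1 + ρ / 2),
      ∫⁻ x₃ in Icc (c 2 - ρ / 2) (c 2 + ρ / 2), Ph68 p a (shb b (m + 5)) n V x₁ x₂ x₃ w ≤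
      (ENNReal.ofReal (ρ ^ 3 * (2 * K / ρ) ^ (12 * p)) * ENNReal.ofReal ((14 * A) ^ p) * ENNReal.ofReal ((7 * A) ^ p) *
        ip p (nv V0)) * ip p (nn (pM a (shb b (m + 5)) n w)) := by
    intro w
    have h3 := hK a (ρ / 2) p c (W68 a (shb b (m + 5)) n w) V ha (by linarith) (by linarith) hp hp4
    refine h3.trans ?_
    have e1 : (2 * (ρ / 2)) ^ 3 * (K / (ρ / 2)) ^ (12 * p) = ρ ^ 3 * (2 * K / ρ) ^ (12 * p) := by
      rw [show 2 * (ρ / 2) = ρ by ring, show K / (ρ / 2) = 2 * K / ρ by field_simp]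
    rw [e1, ip_mul68 (nv_nonneg68 _)]
    have h4 : ip p (nv (W68 a (shb b (m + 5)) n w)) ≤ ENNReal.ofReal ((14 * A) ^ p) * ip p (nn (pM a (shb b (m + 5)) n w)) :=
      ip_le68 hp.le (by positivity) (W_big68 a (shb b (m + 5)) n w)
    have h5 : ip p (nv V) ≤ ENNReal.ofReal ((7 * A) ^ p) * ip p (nv V0) := ip_le68 hp.le (by positivity) hVV
    calc ENNReal.ofReal (ρ ^ 3 * (2 * K / ρ) ^ (12 * p)) * (ip p (nv (W68 a (shb b (m + 5)) n w)) * ip p (nv V))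
        ≤ ENNReal.ofReal (ρ ^ 3 * (2 * K / ρ) ^ (12 * p)) * ((ENNReal.ofReal ((14 * A) ^ p) *
          ip p (nn (pM a (shb b (m + 5)) n w))) * (ENNReal.ofReal ((7 * A) ^ p) * ip p (nv V0))) := by gcongr
      _ = _ := by ring
  have hm1 : Measurable fun w : ℝ × ℝ => ip p (nn (pM a (shb b (m + 5)) n w)) := by
    refine (ip_meas68 p).comp ?_
    unfold nn
    have hc := pM_cont68 a (shb b (m + 5)) n
    exact ((((hc.matrix_elem 0 0).abs.add (hc.matrix_elem 0 1).abs).add (hc.matrix_elem 1 0).abs).add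
      (hc.matrix_elem 1 1).abs).measurable
  calc ∫⁻ t, ip p (nv ((pM a (up5 b m s t) (m + 5 + n) q).mulVec ![1, 0])) ∂un5
      ≤ ∫⁻ t, Ph68 p a (shb b (m + 5)) n V (po a (up5 b m s t) (m + 1) q).1 (po a (up5 b m s t) (m + 2) q).1
        (po a (up5 b m s t) (m + 3) q).1 (po a (up5 b m s t) (m + 5) q) ∂un5 := lintegral_mono hpt
    _ ≤ ENNReal.ofReal ((10 * A) ^ 25 / ρ ^ 5) * ∫⁻ w in sqo c₀ ρ, ∫⁻ x₁ in Icc (c 0 - ρ / 2) (c 0 + ρ / 2),
        ∫⁻ x₂ in Icc (c 1 - ρ / 2) (c 1 + ρ / 2), ∫⁻ x₃ in Icc (c 2 - ρ / 2) (c 2 + ρ / 2),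
          Ph68 p a (shb b (m + 5)) n V x₁ x₂ x₃ w := hfive _ (Ph_meas68 p a (shb b (m + 5)) n V)
    _ ≤ ENNReal.ofReal ((10 * A) ^ 25 / ρ ^ 5) * ∫⁻ w in sqo c₀ ρ,
        (ENNReal.ofReal (ρ ^ 3 * (2 * K / ρ) ^ (12 * p)) * ENNReal.ofReal ((14 * A) ^ p) * ENNReal.ofReal ((7 * A) ^ p) *
        ip p (nv V0)) * ip p (nn (pM a (shb b (m + 5)) n w)) := by
        gcongr with w
        exact hin w
    _ = ENNReal.ofReal ((10 * A) ^ 25 / ρ ^ 5) *
        ((ENNReal.ofReal (ρ ^ 3 * (2 * K / ρ) ^ (12 * p)) * ENNReal.ofReal ((14 * A) ^ p) * ENNReal.ofReal ((7 * A) ^ p) *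
        ip p (nv V0)) * ∫⁻ w in sqo c₀ ρ, ip p (nn (pM a (shb b (m + 5)) n w))) := by
        rw [lintegral_const_mul _ hm1]
    _ ≤ ENNReal.ofReal ((10 * A) ^ 25 / ρ ^ 5) *
        ((ENNReal.ofReal (ρ ^ 3 * (2 * K / ρ) ^ (12 * p)) * ENNReal.ofReal ((14 * A) ^ p) * ENNReal.ofReal ((7 * A) ^ p) *
        ip p (nv V0)) * ENNReal.ofReal (2 * ρ ^ 2 * Real.exp (-(p * r)))) := by
        gcongr
        exact good a ρ p δ r n (shb b (m + 5)) c₀ h0 hp hr hδ hδ1 hDen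
    _ = ENNReal.ofReal ((10 * A) ^ 25 / ρ ^ 5 * (ρ ^ 3 * (2 * K / ρ) ^ (12 * p) * (14 * A) ^ p * (7 * A) ^ p *
        (2 * ρ ^ 2 * Real.exp (-(p * r))))) * ip p (nv V0) := by
        have hsplit : ∀ X1 X2 X3 X4 X5 : ℝ, 0 ≤ X1 → 0 ≤ X2 → 0 ≤ X3 → 0 ≤ X4 → ENNReal.ofReal (X1 * (X2 * X3 * X4 * X5)) =
            ENNReal.ofReal X1 * (ENNReal.ofReal X2 * ENNReal.ofReal X3 * ENNReal.ofReal X4 * ENNReal.ofReal X5) := by
          intro X1 X2 X3 X4 X5 g1 g2 g3 g4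
          rw [ENNReal.ofReal_mul g1, ENNReal.ofReal_mul (mul_nonneg (mul_nonneg g2 g3) g4),
            ENNReal.ofReal_mul (mul_nonneg g2 g3), ENNReal.ofReal_mul g2]
        rw [hsplit _ _ _ _ _ (by positivity) (by positivity) (by positivity) (by positivity)]
        ring
    _ ≤ ENNReal.ofReal (C * A ^ 26 * (C / ρ) ^ (12 * p) * Real.exp (-(p * r))) * ip p (nv V0) := by
        gcongr ENNReal.ofReal ?_ * _
        have h6 : (14 * A) ^ p * (7 * A) ^ p ≤ 98 * A := by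
          rw [← Real.mul_rpow (by positivity) (by positivity)]
          have h7 : 14 * A * (7 * A) = 98 * A ^ 2 := by ring
          rw [h7, Real.mul_rpow (by norm_num) (by positivity)]
          have h8 : (98 : ℝ) ^ p ≤ 98 := by
            calc (98 : ℝ) ^ p ≤ 98 ^ (1 : ℝ) := Real.rpow_le_rpow_of_exponent_le (by norm_num) (by linarith)
              _ = 98 := Real.rpow_one _
          have h9 : (A ^ 2) ^ p ≤ A := by
            calc (A ^ 2) ^ p = A ^ (2 * p) := by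
                  rw [← Real.rpow_natCast, ← Real.rpow_mul (by positivity)]
                  norm_num
              _ ≤ A ^ (1 : ℝ) := Real.rpow_le_rpow_of_exponent_le (by linarith) (by linarith)
              _ = A := Real.rpow_one _
          exact mul_le_mul h8 h9 (by positivity) (by norm_num)
        have h10 : (2 * K / ρ) ^ (12 * p) ≤ (C / ρ) ^ (12 * p) := by
          refine Real.rpow_le_rpow (by positivity) ?_ (by positivity)
          gcongr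
        have e3 : (10 * A) ^ 25 / ρ ^ 5 * (ρ ^ 3 * (2 * K / ρ) ^ (12 * p) * (14 * A) ^ p * (7 * A) ^ p *
            (2 * ρ ^ 2 * Real.exp (-(p * r)))) =
            (10 ^ 25 * 2 * A ^ 25) * ((14 * A) ^ p * (7 * A) ^ p) * (2 * K / ρ) ^ (12 * p) * Real.exp (-(p * r)) := by
          field_simp
        rw [e3]
        calc (10 ^ 25 * 2 * A ^ 25) * ((14 * A) ^ p * (7 * A) ^ p) * (2 * K / ρ) ^ (12 * p) * Real.exp (-(p * r))
            ≤ (10 ^ 25 * 2 * A ^ 25) * (98 * A) * (C / ρ) ^ (12 * p) * Real.exp (-(p * r)) := by gcongr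
          _ = (10 ^ 25 * 196) * A ^ 26 * (C / ρ) ^ (12 * p) * Real.exp (-(p * r)) := by ring
          _ ≤ C * A ^ 26 * (C / ρ) ^ (12 * p) * Real.exp (-(p * r)) := by gcongr

end Pool.Agent.Helper68.AF
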