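import Pool.Agent.Helper46.QP.Defs

/-! Project AF (MP_9ee088_an): moments of `1 / |A cos 2πx + B|`. -/

set_option autoImplicit false
open MeasureTheory Real Set
open scoped ENNReal

namespace Pool.Agent.Helper68.AF

open Pool.Agent.Helper46.QP (TT Td orb Mx va stp ee)

theorem ee_re68 (x : ℝ) : (ee (x : UnitAddCircle)).re = Real.cos (2 * π * x) := by
  unfold ee
  rw [fourier_coe_apply]
  have h : 2 * (π:ℂ) * Complex.I * ((1:ℤ):ℂ) * (x:ℂ) / ((1:ℝ):ℂ) = ((2 * π * x : ℝ) : ℂ) * Complex.I := by
    push_cast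
    ring
  rw [h, Complex.exp_ofReal_mul_I_re]

theorem norm_le_sin68 (x : ℝ) : 2 * ‖(x : UnitAddCircle)‖ ≤ |Real.sin (π * x)| := by
  rw [UnitAddCircle.norm_eq]
  have h1 : |Real.sin (π * x)| = |Real.sin (π * (x - round x))| := by
    have : π * (x - round x) = π * x - (round x : ℤ) * π := by ring
    rw [this, Real.sin_sub_int_mul_pi, abs_mul]
    simp
  rw [h1]
  have h2 : |π * (x - round x)| ≤ π / 2 := by
    rw [abs_mul, abs_of_pos Real.pi_pos]
    have := abs_sub_round x
    nlinarith [Real.pi_pos]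
  have h3 := Real.mul_abs_le_abs_sin h2
  rw [abs_mul, abs_of_pos Real.pi_pos] at h3
  have h4 : 2 / π * (π * |x - round x|) = 2 * |x - round x| := by
    field_simp
  rw [h4] at h3
  exact h3

/-- sublevel sets of `cos - c`, `|c| ≤ 1` -/
theorem sub1_68 {c t : ℝ} (hc : |c| ≤ 1) (ht : 0 ≤ t) :
    volume {x : UnitAddCircle | |(ee x).re - c| ≤ t} ≤ ENNReal.ofReal (2 * Real.sqrt t) := by
  obtain ⟨hc1, hc2⟩ := abs_le.1 hc
  set y := Real.arccos c / (2 * π) with hy
  have hπ := Real.pi_pos
  have hy1 : 2 * π * y = Real.arccos c := by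
    rw [hy]; field_simp
  have hcos : Real.cos (2 * π * y) = c := by rw [hy1, Real.cos_arccos hc1 hc2]
  set s : ℝ := Real.sqrt t / 2 with hs
  have hs0 : 0 ≤ s := by positivity
  have hst : 8 * s ^ 2 = 2 * t := by
    rw [hs, div_pow, Real.sq_sqrt ht]; ring
  have hsub : {x : UnitAddCircle | |(ee x).re - c| ≤ t} ⊆
      Metric.closedBall ((y : ℝ) : UnitAddCircle) s ∪ Metric.closedBall ((-y : ℝ) : UnitAddCircle) s := by
    intro θ hθ
    induction θ using QuotientAddGroup.induction_on with
    | H x =>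
      rw [mem_ofPred_eq, show (QuotientAddGroup.mk x : UnitAddCircle) = (x : UnitAddCircle) from rfl,
        ee_re68] at hθ
      have e1 : Real.cos (2 * π * x) - c =
          -(2 * Real.sin (π * (x + y)) * Real.sin (π * (x - y))) := by
        rw [← hcos, Real.cos_sub_cos]
        rw [show (2 * π * x + 2 * π * y) / 2 = π * (x + y) by ring,
          show (2 * π * x - 2 * π * y) / 2 = π * (x - y) by ring]
        ring
      rw [e1, abs_neg, abs_mul, abs_mul, abs_of_pos (by norm_num : (0:ℝ) < 2)] at hθ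
      have h5 := norm_le_sin68 (x - y)
      have h6 := norm_le_sin68 (x - -y)
      rw [sub_neg_eq_add] at h6
      by_contra hcon
      rw [mem_union, not_or] at hcon
      obtain ⟨g1, g2⟩ := hcon
      rw [Metric.mem_closedBall, not_le, dist_eq_norm,
        show (QuotientAddGroup.mk x : UnitAddCircle) = (x : UnitAddCircle) from rfl, ← AddCircle.coe_sub] at g1 g2
      rw [sub_neg_eq_add] at g2
      have h7 : 2 * s < |Real.sin (π * (x - y))| := by linarith
      have h8 : 2 * s < |Real.sin (π * (x + y))| := by linarith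
      have h9 : (2 * s) * (2 * s) ≤ |Real.sin (π * (x + y))| * |Real.sin (π * (x - y))| :=
        mul_le_mul h8.le h7.le (by linarith) (abs_nonneg _)
      have h10 : (2 * s) * (2 * s) < |Real.sin (π * (x + y))| * |Real.sin (π * (x - y))| := by
        rcases eq_or_lt_of_le hs0 with h | h
        · rw [← h] at h7 h8 ⊢
          have : 0 < |Real.sin (π * (x + y))| * |Real.sin (π * (x - y))| := mul_pos (by linarith) (by linarith)
          linarith
        · exact mul_lt_mul h8 h7.le (by linarith) (abs_nonneg _)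
      nlinarith
  have hball : ∀ z : UnitAddCircle, volume (Metric.closedBall z s) ≤ ENNReal.ofReal (2 * s) := by
    intro z
    rw [AddCircle.volume_closedBall]
    exact ENNReal.ofReal_le_ofReal (min_le_right _ _)
  calc volume {x : UnitAddCircle | |(ee x).re - c| ≤ t} ≤ _ := measure_mono hsub
    _ ≤ _ := measure_union_le _ _
    _ ≤ ENNReal.ofReal (2 * s) + ENNReal.ofReal (2 * s) := add_le_add (hball _) (hball _)
    _ = ENNReal.ofReal (2 * Real.sqrt t) := by
        rw [← ENNReal.ofReal_add (by positivity) (by positivity)]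
        congr 1
        rw [hs]; ring

theorem ee_abs68 (x : UnitAddCircle) : |(ee x).re| ≤ 1 := by
  have h : ‖ee x‖ = 1 := by
    unfold ee
    rw [fourier_apply]
    exact Circle.norm_coe _
  calc |(ee x).re| ≤ ‖ee x‖ := Complex.abs_re_le_norm _
    _ = 1 := h

/-- sublevel sets of `A cos + B` -/
theorem sub2_68 {A B m t : ℝ} (hm : 0 < m) (hAB : m ≤ |A| ∨ m ≤ |B|) (ht : 0 ≤ t) :
    volume {x : UnitAddCircle | |A * (ee x).re + B| ≤ m * t} ≤ ENNReal.ofReal (4 * Real.sqrt t) := by
  have hsq : 0 ≤ Real.sqrt t := Real.sqrt_nonneg t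
  have mono : ENNReal.ofReal (2 * Real.sqrt t) ≤ ENNReal.ofReal (4 * Real.sqrt t) :=
    ENNReal.ofReal_le_ofReal (by linarith)
  have h1 := sub1_68 (c := 1) (t := t) (by norm_num) ht
  have h2 := sub1_68 (c := -1) (t := t) (by norm_num) ht
  rcases le_or_gt |B| |A| with h | h
  · have hA : m ≤ |A| := by
      rcases hAB with h' | h'
      · exact h'
      · exact h'.trans h
    have hA0 : 0 < |A| := hm.trans_le hA
    have hA0' : A ≠ 0 := abs_pos.1 hA0
    have hc : |-(B / A)| ≤ 1 := by
      rw [abs_neg, abs_div, div_le_one hA0]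
      exact h
    refine le_trans (measure_mono ?_) ((sub1_68 hc ht).trans mono)
    intro x hx
    rw [mem_ofPred_eq] at hx ⊢
    have e : A * (ee x).re + B = A * ((ee x).re - -(B / A)) := by
      field_simp
      ring
    rw [e, abs_mul] at hx
    have h3 : |A| * |(ee x).re - -(B / A)| ≤ |A| * t := hx.trans (mul_le_mul_of_nonneg_right hA ht)
    exact le_of_mul_le_mul_left h3 hA0
  · have hB : m ≤ |B| := by
      rcases hAB with h' | h'
      · exact h'.trans h.le
      · exact h'
    have hB0 : 0 < |B| := hm.trans_le hB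
    have hsub : {x : UnitAddCircle | |A * (ee x).re + B| ≤ m * t} ⊆
        {x : UnitAddCircle | |(ee x).re - 1| ≤ t} ∪ {x : UnitAddCircle | |(ee x).re - -1| ≤ t} := by
      intro x hx
      rw [mem_ofPred_eq] at hx
      have hx1 := ee_abs68 x
      have h3 : |B| - |A| * |(ee x).re| ≤ |A * (ee x).re + B| := by
        have := abs_sub_abs_le_abs_sub B (-(A * (ee x).re))
        rw [abs_neg, abs_mul, sub_neg_eq_add, add_comm B] at this
        exact this
      have h4 : |B| * (1 - |(ee x).re|) ≤ |B| * t := by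
        have h5 : |A| * |(ee x).re| ≤ |B| * |(ee x).re| := mul_le_mul_of_nonneg_right h.le (abs_nonneg _)
        have h6 : m * t ≤ |B| * t := mul_le_mul_of_nonneg_right hB ht
        linarith
      have h7 : 1 - |(ee x).re| ≤ t := le_of_mul_le_mul_left h4 hB0
      rcases le_total 0 (ee x).re with h0 | h0
      · left
        rw [abs_of_nonneg h0] at h7 hx1
        rw [mem_ofPred_eq, abs_of_nonpos (by linarith)]
        linarith
      · right
        rw [abs_of_nonpos h0] at h7 hx1
        rw [mem_ofPred_eq, abs_of_nonneg (by linarith)]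
        linarith
    calc volume {x : UnitAddCircle | |A * (ee x).re + B| ≤ m * t} ≤ _ := measure_mono hsub
      _ ≤ _ := measure_union_le _ _
      _ ≤ _ := add_le_add h1 h2
      _ = ENNReal.ofReal (4 * Real.sqrt t) := by
          rw [← ENNReal.ofReal_add (by positivity) (by positivity)]
          congr 1
          ring

theorem meas68 (A B : ℝ) : Measurable fun x : UnitAddCircle => A * (ee x).re + B := by
  have h : Continuous fun x : UnitAddCircle => (ee x).re := by
    unfold ee
    exact Complex.continuous_re.comp (fourier 1).continuous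
  exact (h.measurable.const_mul A).add_const B

/-- the moment of order `-1/4` -/
theorem mom68 {A B m : ℝ} (hm : 0 < m) (hAB : m ≤ |A| ∨ m ≤ |B|) :
    ∫⁻ x : UnitAddCircle, ENNReal.ofReal (|A * (ee x).re + B| ^ (-(1 / 4 : ℝ))) ≤
      ENNReal.ofReal (5 * m ^ (-(1 / 4 : ℝ))) := by
  set g : UnitAddCircle → ℝ := fun x => |A * (ee x).re + B| with hg
  have hgm : Measurable g := by
    have := (meas68 A B).abs
    exact this
  set h : UnitAddCircle → ℝ := fun x => (g x / m) ^ (-(1 / 4 : ℝ)) with hh
  have hgp : ∀ x, 0 ≤ g x := fun x => abs_nonneg _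
  have hhm : Measurable h := (hgm.div_const m).pow_const _
  have key : ∫⁻ x, ENNReal.ofReal (h x) ≤ 5 := by
    rw [lintegral_eq_lintegral_meas_lt volume (Filter.Eventually.of_forall fun x => by
      show 0 ≤ (g x / m) ^ (-(1 / 4 : ℝ))
      have := hgp x
      positivity) hhm.aemeasurable]
    have hb : ∀ s ∈ Ioi (0:ℝ), volume {x | s < h x} ≤
        (Ioc (0:ℝ) 1).indicator (fun _ => (1:ℝ≥0∞)) s + (Ioi (1:ℝ)).indicator (fun s => ENNReal.ofReal (4 * s ^ (-2:ℝ))) s := by
      intro s hs
      have hs0 : 0 < s := hs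
      rcases le_or_gt s 1 with h1 | h1
      · rw [indicator_of_mem (show s ∈ Ioc (0:ℝ) 1 from ⟨hs0, h1⟩)]
        exact (prob_le_one).trans le_self_add
      · rw [indicator_of_mem (show s ∈ Ioi (1:ℝ) from h1)]
        refine le_trans ?_ le_add_self
        have h2 := sub2_68 (t := s ^ (-4:ℝ)) hm hAB (by positivity)
        have e : Real.sqrt (s ^ (-4:ℝ)) = s ^ (-2:ℝ) := by
          rw [Real.sqrt_eq_rpow, ← Real.rpow_mul hs0.le]
          norm_num
        rw [e] at h2
        refine le_trans (measure_mono ?_) h2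
        intro x hx
        rw [mem_ofPred_eq] at hx ⊢
        have hx' : s < (g x / m) ^ (-(1 / 4 : ℝ)) := hx
        have hgx : 0 < g x / m := by
          rcases (div_nonneg (hgp x) hm.le).eq_or_lt with h0 | h0
          · rw [← h0, Real.zero_rpow (by norm_num)] at hx'
            linarith
          · exact h0
        have h3 : s ^ (4:ℝ) < ((g x / m) ^ (-(1 / 4 : ℝ))) ^ (4:ℝ) := Real.rpow_lt_rpow hs0.le hx' (by norm_num)
        rw [← Real.rpow_mul hgx.le] at h3
        have h4 : (-(1 / 4 : ℝ)) * 4 = -1 := by norm_num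
        rw [h4, Real.rpow_neg_one] at h3
        have h5 : g x / m < s ^ (-4:ℝ) := by
          rw [Real.rpow_neg hs0.le]
          exact (lt_inv_comm₀ (by positivity) hgx).1 h3
        rw [div_lt_iff₀ hm] at h5
        show g x ≤ _
        linarith
    calc ∫⁻ s in Ioi (0:ℝ), volume {x | s < h x}
        ≤ ∫⁻ s in Ioi (0:ℝ), ((Ioc (0:ℝ) 1).indicator (fun _ => (1:ℝ≥0∞)) s +
          (Ioi (1:ℝ)).indicator (fun s => ENNReal.ofReal (4 * s ^ (-2:ℝ))) s) :=
          setLIntegral_mono' measurableSet_Ioi hb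
      _ ≤ ∫⁻ s, ((Ioc (0:ℝ) 1).indicator (fun _ => (1:ℝ≥0∞)) s +
          (Ioi (1:ℝ)).indicator (fun s => ENNReal.ofReal (4 * s ^ (-2:ℝ))) s) := setLIntegral_le_lintegral _ _
      _ = 1 + 4 := by
          rw [lintegral_add_left (measurable_const.indicator measurableSet_Ioc),
            lintegral_indicator measurableSet_Ioc, lintegral_indicator measurableSet_Ioi, lintegral_one,
            Measure.restrict_apply_univ, Real.volume_Ioc]
          congr 1
          · norm_num
          · have h6 : ∫⁻ s in Ioi (1:ℝ), ENNReal.ofReal (4 * s ^ (-2:ℝ)) = ENNReal.ofReal (∫ s in Ioi (1:ℝ), 4 * s ^ (-2:ℝ)) := by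
              rw [ofReal_integral_eq_lintegral_ofReal]
              · exact (integrableOn_Ioi_rpow_of_lt (by norm_num) one_pos).const_mul 4
              · refine (ae_restrict_iff' measurableSet_Ioi).2 (Filter.Eventually.of_forall fun s hs => ?_)
                have : (0:ℝ) < s := lt_trans one_pos hs
                show (0:ℝ) ≤ 4 * s ^ (-2:ℝ)
                positivity
            rw [h6, integral_const_mul, integral_Ioi_rpow_of_lt (by norm_num) one_pos]
            norm_num
      _ = 5 := by norm_num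
  calc ∫⁻ x : UnitAddCircle, ENNReal.ofReal (|A * (ee x).re + B| ^ (-(1 / 4 : ℝ)))
      = ∫⁻ x, ENNReal.ofReal (m ^ (-(1 / 4 : ℝ))) * ENNReal.ofReal (h x) := by
        refine lintegral_congr fun x => ?_
        rw [← ENNReal.ofReal_mul (by positivity)]
        congr 1
        show g x ^ (-(1 / 4 : ℝ)) = m ^ (-(1 / 4 : ℝ)) * (g x / m) ^ (-(1 / 4 : ℝ))
        rw [← Real.mul_rpow hm.le (div_nonneg (hgp x) hm.le), mul_div_cancel₀ _ hm.ne']
    _ = ENNReal.ofReal (m ^ (-(1 / 4 : ℝ))) * ∫⁻ x, ENNReal.ofReal (h x) := lintegral_const_mul _ hhm.ennreal_ofReal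
    _ ≤ ENNReal.ofReal (m ^ (-(1 / 4 : ℝ))) * 5 := by gcongr
    _ = ENNReal.ofReal (5 * m ^ (-(1 / 4 : ℝ))) := by
        rw [ENNReal.ofReal_mul (by norm_num), mul_comm]
        norm_num

end Pool.Agent.Helper68.AF
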