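import Pool.Agent.Helper8.AF.Cos
import Pool.Agent.Helper23.AF.Defs

/-! Project AF (MP_9ee088_an): the positions after five steps with noise of size `s` have a joint density at most
`s^(-5)`, and they stay near the orbit without noise. -/

set_option autoImplicit false
open MeasureTheory Real Set
open scoped ENNReal

namespace Pool.Agent.Helper68.AF

open Pool.Agent.Helper46.QP (TT Td ee)
open Pool.Agent.Helper23.AF (stp va orb Mx)

/-- the first coordinate after one step with the parameters `a`, `b` -/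
noncomputable def cen (a b : ℝ) (z : TT) : UnitAddCircle := (stp (a, b) z).1

theorem stp_eq68 (a b t : ℝ) (z : TT) : stp (a, b + t) z = (cen a b z + ((t : ℝ) : UnitAddCircle), z.1) := by
  unfold cen stp
  refine Prod.ext ?_ rfl
  show _ + (((b + t : ℝ)) : UnitAddCircle) = _ + ((b : ℝ) : UnitAddCircle) + ((t : ℝ) : UnitAddCircle)
  rw [AddCircle.coe_add, add_assoc]

private theorem ee_add68 (x y : UnitAddCircle) : ee (x + y) = ee x * ee y := by
  unfold ee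
  rw [fourier_apply, fourier_apply, fourier_apply, smul_add, AddCircle.toCircle_add, Circle.coe_mul]

private theorem norm_ee68 (x : UnitAddCircle) : ‖ee x‖ = 1 := by
  unfold ee
  rw [fourier_apply]
  exact Circle.norm_coe _

private theorem ee_sub_one68 (x : UnitAddCircle) : ‖ee x - 1‖ ≤ 2 * π * ‖x‖ := by
  induction x using QuotientAddGroup.induction_on with
  | H t =>
  have h1 : ((t : ℝ) : UnitAddCircle) = ((t - round t : ℝ) : UnitAddCircle) := by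
    rw [AddCircle.coe_sub, sub_eq_self.2]
    have h2 := AddCircle.coe_period (1 : ℝ)
    have h3 : ((round t : ℝ) : UnitAddCircle) = (round t) • ((1 : ℝ) : UnitAddCircle) := by
      rw [← AddCircle.coe_zsmul, zsmul_one]
    rw [h3, h2, smul_zero]
  have h4 : ‖((t : ℝ) : UnitAddCircle)‖ = |t - round t| := UnitAddCircle.norm_eq
  have h5 : ee ((t : ℝ) : UnitAddCircle) = Complex.exp (Complex.I * ((2 * π * (t - round t) : ℝ) : ℂ)) := by
    rw [h1]
    unfold ee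
    rw [fourier_coe_apply]
    congr 1
    push_cast
    ring
  show ‖ee ((t : ℝ) : UnitAddCircle) - 1‖ ≤ 2 * π * ‖((t : ℝ) : UnitAddCircle)‖
  rw [h4, h5]
  refine (Real.norm_exp_I_mul_ofReal_sub_one_le).trans ?_
  rw [Real.norm_eq_abs, abs_mul, abs_of_pos (by positivity : (0 : ℝ) < 2 * π)]

private theorem ee_lip68 (x y : UnitAddCircle) : ‖ee x - ee y‖ ≤ 2 * π * ‖x - y‖ := by
  have h : ee x - ee y = ee y * (ee (x - y) - 1) := by
    rw [mul_sub, ← ee_add68, mul_one, add_sub_cancel]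
  rw [h, norm_mul, norm_ee68, one_mul]
  exact ee_sub_one68 _

theorem cen_dist (a b : ℝ) (z z' : TT) :
    dist (cen a b z) (cen a b z') ≤ (2 + 2 * π * |a|) * dist z.1 z'.1 + dist z.2 z'.2 := by
  have h4 : cen a b z - cen a b z' = (z.1 - z'.1) + (z.1 - z'.1) - (z.2 - z'.2) +
      ((((a : ℂ) * ee z.1 - (a : ℂ) * ee z'.1).im : ℝ) : UnitAddCircle) := by
    rw [Complex.sub_im, AddCircle.coe_sub]
    show (z.1 + z.1 - z.2 + ((((a : ℂ) * ee z.1).im : ℝ) : UnitAddCircle)) + ((b : ℝ) : UnitAddCircle) -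
      ((z'.1 + z'.1 - z'.2 + ((((a : ℂ) * ee z'.1).im : ℝ) : UnitAddCircle)) + ((b : ℝ) : UnitAddCircle)) = _
    generalize ((((a : ℂ) * ee z.1).im : ℝ) : UnitAddCircle) = r
    generalize ((((a : ℂ) * ee z'.1).im : ℝ) : UnitAddCircle) = r'
    generalize ((b : ℝ) : UnitAddCircle) = t
    generalize z.1 = p
    generalize z.2 = q
    generalize z'.1 = p'
    generalize z'.2 = q'
    abel
  rw [dist_eq_norm, h4, dist_eq_norm, dist_eq_norm]
  have h5 : ‖((((a : ℂ) * ee z.1 - (a : ℂ) * ee z'.1).im : ℝ) : UnitAddCircle)‖ ≤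
      |a| * (2 * π * ‖z.1 - z'.1‖) := by
    refine (QuotientAddGroup.norm_mk_le_norm).trans ((Complex.abs_im_le_norm _).trans ?_)
    rw [← mul_sub, norm_mul, Complex.norm_real, Real.norm_eq_abs]
    exact mul_le_mul_of_nonneg_left (ee_lip68 _ _) (abs_nonneg _)
  have h6 : ‖(z.1 - z'.1) + (z.1 - z'.1) - (z.2 - z'.2)‖ ≤ ‖z.1 - z'.1‖ + ‖z.1 - z'.1‖ + ‖z.2 - z'.2‖ :=
    (norm_sub_le _ _).trans (add_le_add_left (norm_add_le _ _) _)
  refine (norm_add_le _ _).trans ?_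
  linarith

theorem shift_dist68 {c y : UnitAddCircle} {s u : ℝ} (hs : 0 < s) (hu : u ∈ Ioc (0 : ℝ) 1) :
    dist (c + ((s * u : ℝ) : UnitAddCircle)) y ≤ dist c y + s := by
  have h1 : ‖((s * u : ℝ) : UnitAddCircle)‖ ≤ s := by
    refine (QuotientAddGroup.norm_mk_le_norm).trans ?_
    rw [Real.norm_eq_abs, abs_of_nonneg (mul_nonneg hs.le hu.1.le)]
    nlinarith [hu.2]
  calc dist (c + ((s * u : ℝ) : UnitAddCircle)) y ≤ dist (c + ((s * u : ℝ) : UnitAddCircle)) c + dist c y := dist_triangle _ _ _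
    _ ≤ s + dist c y := by
        refine add_le_add_left ?_ _
        rw [dist_eq_norm, add_sub_cancel_left]
        exact h1
    _ = _ := add_comm _ _

/-- one step -/
theorem arcC {F G : UnitAddCircle → ℝ≥0∞} (hF : Measurable F) {c y : UnitAddCircle} {s R : ℝ} {K : ℝ≥0∞} (hs : 0 < s)
    (hs1 : s ≤ 1) (hd : dist c y + s ≤ R)
    (h : ∀ u ∈ Ioc (0 : ℝ) 1, G (c + ((s * u : ℝ) : UnitAddCircle)) ≤ K * F (c + ((s * u : ℝ) : UnitAddCircle))) :
    ∫⁻ u in Ioc (0 : ℝ) 1, G (c + ((s * u : ℝ) : UnitAddCircle)) ≤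
      ENNReal.ofReal s⁻¹ * K * ∫⁻ x in Metric.closedBall y R, F x := by
  have hFK : Measurable fun x => K * (Metric.closedBall y R).indicator F x :=
    (hF.indicator Metric.isClosed_closedBall.measurableSet).const_mul K
  calc ∫⁻ u in Ioc (0 : ℝ) 1, G (c + ((s * u : ℝ) : UnitAddCircle))
      ≤ ∫⁻ u in Ioc (0 : ℝ) 1, (fun x => K * (Metric.closedBall y R).indicator F x) (c + ((s * u : ℝ) : UnitAddCircle)) := by
        refine setLIntegral_mono' measurableSet_Ioc fun u hu => ?_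
        refine (h u hu).trans (le_of_eq ?_)
        show _ = K * _
        rw [indicator_of_mem]
        rw [Metric.mem_closedBall]
        exact (shift_dist68 hs hu).trans hd
    _ ≤ ENNReal.ofReal s⁻¹ * ∫⁻ x, K * (Metric.closedBall y R).indicator F x := Pool.Agent.Helper8.AF.arc hFK c hs hs1
    _ = _ := by
        rw [lintegral_const_mul K (hF.indicator Metric.isClosed_closedBall.measurableSet),
          lintegral_indicator Metric.isClosed_closedBall.measurableSet, mul_assoc]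

section
variable (a s b0 b1 b2 b3 b4 : ℝ) (z : TT)
  (Φ : UnitAddCircle → UnitAddCircle → UnitAddCircle → UnitAddCircle → UnitAddCircle → ℝ≥0∞)

private noncomputable def g4 (x1 x2 x3 x4 : UnitAddCircle) : ℝ≥0∞ :=
  ∫⁻ u in Ioc (0 : ℝ) 1, Φ x1 x2 x3 x4 (cen a b4 (x4, x3) + ((s * u : ℝ) : UnitAddCircle))

private noncomputable def g3 (x1 x2 x3 : UnitAddCircle) : ℝ≥0∞ :=
  ∫⁻ u in Ioc (0 : ℝ) 1, g4 a s b4 Φ x1 x2 x3 (cen a b3 (x3, x2) + ((s * u : ℝ) : UnitAddCircle))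

private noncomputable def g2 (x1 x2 : UnitAddCircle) : ℝ≥0∞ :=
  ∫⁻ u in Ioc (0 : ℝ) 1, g3 a s b3 b4 Φ x1 x2 (cen a b2 (x2, x1) + ((s * u : ℝ) : UnitAddCircle))

private noncomputable def g1 (x1 : UnitAddCircle) : ℝ≥0∞ :=
  ∫⁻ u in Ioc (0 : ℝ) 1, g2 a s b2 b3 b4 Φ x1 (cen a b1 (x1, z.1) + ((s * u : ℝ) : UnitAddCircle))

private noncomputable def g0 : ℝ≥0∞ :=
  ∫⁻ u in Ioc (0 : ℝ) 1, g1 a s b1 b2 b3 b4 z Φ (cen a b0 z + ((s * u : ℝ) : UnitAddCircle))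

end

private theorem five_aux {a s R : ℝ} (ha : 1 ≤ |a|) (hs : 0 < s) (hs1 : s ≤ 1) (hR : (10 * |a|) ^ 5 * s ≤ R)
    (b0 b1 b2 b3 b4 : ℝ) (z : TT) {y1 y2 y3 y4 y5 : UnitAddCircle} (h1 : y1 = cen a b0 z) (h2 : y2 = cen a b1 (y1, z.1))
    (h3 : y3 = cen a b2 (y2, y1)) (h4 : y4 = cen a b3 (y3, y2)) (h5 : y5 = cen a b4 (y4, y3))
    {Φ : UnitAddCircle → UnitAddCircle → UnitAddCircle → UnitAddCircle → UnitAddCircle → ℝ≥0∞}
    (hΦ : Measurable fun p : UnitAddCircle × UnitAddCircle × UnitAddCircle × UnitAddCircle × UnitAddCircle =>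
      Φ p.1 p.2.1 p.2.2.1 p.2.2.2.1 p.2.2.2.2) :
    g0 a s b0 b1 b2 b3 b4 z Φ ≤
      ENNReal.ofReal s⁻¹ ^ 5 * ∫⁻ x1 in Metric.closedBall y1 R, ∫⁻ x2 in Metric.closedBall y2 R,
        ∫⁻ x3 in Metric.closedBall y3 R, ∫⁻ x4 in Metric.closedBall y4 R, ∫⁻ x5 in Metric.closedBall y5 R, Φ x1 x2 x3 x4 x5 := by
  have hπ := Real.pi_gt_three
  have hπ' := Real.pi_lt_d2
  set A : ℝ := 10 * |a| with hA
  have hA10 : 10 ≤ A := by linarith
  set L : ℝ := 2 + 2 * π * |a| with hL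
  have hL0 : 0 ≤ L := by positivity
  have cd : ∀ (b : ℝ) (p q p' q' : UnitAddCircle), dist (cen a b (p, q)) (cen a b (p', q')) ≤ L * dist p p' + dist q q' :=
    fun b p q p' q' => cen_dist a b (p, q) (p', q')
  have hLA : L ≤ 83 / 100 * A := by
    rw [hL, hA]
    nlinarith
  -- sizes
  have hpow : ∀ k : ℕ, s ≤ A ^ k * s := fun k => le_mul_of_one_le_left hs.le (one_le_pow₀ (by linarith))
  have hrec : ∀ k : ℕ, 1 ≤ k → L * (A ^ k * s) + A ^ (k - 1) * s + s ≤ A ^ (k + 1) * s := by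
    intro k hk
    obtain ⟨m, rfl⟩ : ∃ m, k = m + 1 := ⟨k - 1, by omega⟩
    rw [Nat.add_sub_cancel]
    have e1 : A ^ (m + 1 + 1) * s = A * (A ^ (m + 1) * s) := by ring
    have e2 : A ^ (m + 1) * s = A * (A ^ m * s) := by ring
    have h6 := hpow m
    have h7 : 0 < A ^ m * s := by positivity
    rw [e1, e2]
    nlinarith [mul_le_mul_of_nonneg_right hLA (by positivity : 0 ≤ A * (A ^ m * s)),
      mul_le_mul_of_nonneg_right hA10 h7.le, mul_le_mul_of_nonneg_right hA10 (by positivity : 0 ≤ A * (A ^ m * s))]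
  have hR1 : A ^ 1 * s ≤ R := le_trans (mul_le_mul_of_nonneg_right (pow_le_pow_right₀ (by linarith) (by norm_num)) hs.le) hR
  have hR2 : A ^ 2 * s ≤ R := le_trans (mul_le_mul_of_nonneg_right (pow_le_pow_right₀ (by linarith) (by norm_num)) hs.le) hR
  have hR3 : A ^ 3 * s ≤ R := le_trans (mul_le_mul_of_nonneg_right (pow_le_pow_right₀ (by linarith) (by norm_num)) hs.le) hR
  have hR4 : A ^ 4 * s ≤ R := le_trans (mul_le_mul_of_nonneg_right (pow_le_pow_right₀ (by linarith) (by norm_num)) hs.le) hR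
  -- measurability
  set B1 := Metric.closedBall y1 R
  set B2 := Metric.closedBall y2 R
  set B3 := Metric.closedBall y3 R
  set B4 := Metric.closedBall y4 R
  set B5 := Metric.closedBall y5 R
  have M5 : ∀ x1 x2 x3 x4, Measurable (Φ x1 x2 x3 x4) := fun x1 x2 x3 x4 =>
    hΦ.comp (by fun_prop : Measurable fun q : UnitAddCircle => (x1, (x2, (x3, (x4, q)))))
  have M4 : ∀ x1 x2 x3, Measurable fun x4 => ∫⁻ x5 in B5, Φ x1 x2 x3 x4 x5 := by
    intro x1 x2 x3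
    exact Measurable.lintegral_prod_right' (f := fun p : UnitAddCircle × UnitAddCircle => Φ x1 x2 x3 p.1 p.2)
      (hΦ.comp (by fun_prop : Measurable fun q : UnitAddCircle × UnitAddCircle => (x1, (x2, (x3, (q.1, q.2))))))
  have M3 : ∀ x1 x2, Measurable fun x3 => ∫⁻ x4 in B4, ∫⁻ x5 in B5, Φ x1 x2 x3 x4 x5 := by
    intro x1 x2
    refine Measurable.lintegral_prod_right' (f := fun p : UnitAddCircle × UnitAddCircle => ∫⁻ x5 in B5, Φ x1 x2 p.1 p.2 x5) ?_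
    exact Measurable.lintegral_prod_right' (f := fun p : (UnitAddCircle × UnitAddCircle) × UnitAddCircle => Φ x1 x2 p.1.1 p.1.2 p.2)
      (hΦ.comp (by fun_prop : Measurable fun q : (UnitAddCircle × UnitAddCircle) × UnitAddCircle => (x1, (x2, (q.1.1, (q.1.2, q.2))))))
  have M2 : ∀ x1, Measurable fun x2 => ∫⁻ x3 in B3, ∫⁻ x4 in B4, ∫⁻ x5 in B5, Φ x1 x2 x3 x4 x5 := by
    intro x1
    refine Measurable.lintegral_prod_right' (f := fun p : UnitAddCircle × UnitAddCircle =>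
      ∫⁻ x4 in B4, ∫⁻ x5 in B5, Φ x1 p.1 p.2 x4 x5) ?_
    refine Measurable.lintegral_prod_right' (f := fun p : (UnitAddCircle × UnitAddCircle) × UnitAddCircle =>
      ∫⁻ x5 in B5, Φ x1 p.1.1 p.1.2 p.2 x5) ?_
    exact Measurable.lintegral_prod_right' (f := fun p : ((UnitAddCircle × UnitAddCircle) × UnitAddCircle) × UnitAddCircle =>
      Φ x1 p.1.1.1 p.1.1.2 p.1.2 p.2)
      (hΦ.comp (by fun_prop : Measurable fun q : ((UnitAddCircle × UnitAddCircle) × UnitAddCircle) × UnitAddCircle =>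
        (x1, (q.1.1.1, (q.1.1.2, (q.1.2, q.2))))))
  have M1 : Measurable fun x1 => ∫⁻ x2 in B2, ∫⁻ x3 in B3, ∫⁻ x4 in B4, ∫⁻ x5 in B5, Φ x1 x2 x3 x4 x5 := by
    refine Measurable.lintegral_prod_right' (f := fun p : UnitAddCircle × UnitAddCircle =>
      ∫⁻ x3 in B3, ∫⁻ x4 in B4, ∫⁻ x5 in B5, Φ p.1 p.2 x3 x4 x5) ?_
    refine Measurable.lintegral_prod_right' (f := fun p : (UnitAddCircle × UnitAddCircle) × UnitAddCircle =>
      ∫⁻ x4 in B4, ∫⁻ x5 in B5, Φ p.1.1 p.1.2 p.2 x4 x5) ?_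
    refine Measurable.lintegral_prod_right' (f := fun p : ((UnitAddCircle × UnitAddCircle) × UnitAddCircle) × UnitAddCircle =>
      ∫⁻ x5 in B5, Φ p.1.1.1 p.1.1.2 p.1.2 p.2 x5) ?_
    exact Measurable.lintegral_prod_right'
      (f := fun p : (((UnitAddCircle × UnitAddCircle) × UnitAddCircle) × UnitAddCircle) × UnitAddCircle =>
      Φ p.1.1.1.1 p.1.1.1.2 p.1.1.2 p.1.2 p.2)
      (hΦ.comp (by fun_prop : Measurable fun q : (((UnitAddCircle × UnitAddCircle) × UnitAddCircle) × UnitAddCircle) × UnitAddCircle =>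
        (q.1.1.1.1, (q.1.1.1.2, (q.1.1.2, (q.1.2, q.2))))))
  set I : ℝ≥0∞ := ENNReal.ofReal s⁻¹ with hI
  rw [show I ^ 5 = I * (I * (I * (I * (I * 1)))) by ring]
  refine arcC (F := fun x1 => ∫⁻ x2 in B2, ∫⁻ x3 in B3, ∫⁻ x4 in B4, ∫⁻ x5 in B5, Φ x1 x2 x3 x4 x5)
    (G := g1 a s b1 b2 b3 b4 z Φ) M1 hs hs1 ?_ ?_
  · rw [h1, dist_self, zero_add]
    exact (hpow 1).trans hR1
  intro u0 hu0
  set x1 := cen a b0 z + ((s * u0 : ℝ) : UnitAddCircle) with hx1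
  have d1 : dist x1 y1 ≤ A ^ 1 * s := by
    have e := shift_dist68 (c := cen a b0 z) (y := cen a b0 z) hs hu0
    rw [dist_self, zero_add] at e
    rw [hx1, h1]
    exact e.trans (hpow 1)
  have c2 : dist (cen a b1 (x1, z.1)) y2 + s ≤ A ^ 2 * s := by
    have e := cd b1 x1 z.1 y1 z.1
    rw [← h2, dist_self, add_zero] at e
    have e2 : L * (A ^ 1 * s) + A ^ 0 * s + s ≤ A ^ 2 * s := hrec 1 le_rfl
    have e3 : L * dist x1 y1 ≤ L * (A ^ 1 * s) := mul_le_mul_of_nonneg_left d1 hL0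
    have e4 : 0 ≤ A ^ 0 * s := by positivity
    linarith
  refine arcC (F := fun x2 => ∫⁻ x3 in B3, ∫⁻ x4 in B4, ∫⁻ x5 in B5, Φ x1 x2 x3 x4 x5)
    (G := g2 a s b2 b3 b4 Φ x1) (M2 x1) hs hs1 (c2.trans hR2) ?_
  intro u1 hu1
  set x2 := cen a b1 (x1, z.1) + ((s * u1 : ℝ) : UnitAddCircle) with hx2
  have d2 : dist x2 y2 ≤ A ^ 2 * s := (shift_dist68 hs hu1).trans c2
  have c3 : dist (cen a b2 (x2, x1)) y3 + s ≤ A ^ 3 * s := by
    have e := cd b2 x2 x1 y2 y1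
    rw [← h3] at e
    have e2 : L * (A ^ 2 * s) + A ^ 1 * s + s ≤ A ^ 3 * s := hrec 2 (by norm_num)
    have e3 : L * dist x2 y2 ≤ L * (A ^ 2 * s) := mul_le_mul_of_nonneg_left d2 hL0
    linarith
  refine arcC (F := fun x3 => ∫⁻ x4 in B4, ∫⁻ x5 in B5, Φ x1 x2 x3 x4 x5)
    (G := g3 a s b3 b4 Φ x1 x2) (M3 x1 x2) hs hs1 (c3.trans hR3) ?_
  intro u2 hu2
  set x3 := cen a b2 (x2, x1) + ((s * u2 : ℝ) : UnitAddCircle) with hx3
  have d3 : dist x3 y3 ≤ A ^ 3 * s := (shift_dist68 hs hu2).trans c3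
  have c4 : dist (cen a b3 (x3, x2)) y4 + s ≤ A ^ 4 * s := by
    have e := cd b3 x3 x2 y3 y2
    rw [← h4] at e
    have e2 : L * (A ^ 3 * s) + A ^ 2 * s + s ≤ A ^ 4 * s := hrec 3 (by norm_num)
    have e3 : L * dist x3 y3 ≤ L * (A ^ 3 * s) := mul_le_mul_of_nonneg_left d3 hL0
    linarith
  refine arcC (F := fun x4 => ∫⁻ x5 in B5, Φ x1 x2 x3 x4 x5)
    (G := g4 a s b4 Φ x1 x2 x3) (M4 x1 x2 x3) hs hs1 (c4.trans hR4) ?_
  intro u3 hu3
  set x4 := cen a b3 (x3, x2) + ((s * u3 : ℝ) : UnitAddCircle) with hx4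
  have d4 : dist x4 y4 ≤ A ^ 4 * s := (shift_dist68 hs hu3).trans c4
  have c5 : dist (cen a b4 (x4, x3)) y5 + s ≤ A ^ 5 * s := by
    have e := cd b4 x4 x3 y4 y3
    rw [← h5] at e
    have e2 : L * (A ^ 4 * s) + A ^ 3 * s + s ≤ A ^ 5 * s := hrec 4 (by norm_num)
    have e3 : L * dist x4 y4 ≤ L * (A ^ 4 * s) := mul_le_mul_of_nonneg_left d4 hL0
    linarith
  refine arcC (F := Φ x1 x2 x3 x4) (G := Φ x1 x2 x3 x4) (M5 x1 x2 x3 x4) hs hs1 (c5.trans hR) ?_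
  intro u4 _
  rw [one_mul]

/-- **Five steps with noise.** `x₁, .., x₅` are the first coordinates of the five points. -/
theorem five {a s R : ℝ} (ha : 1 ≤ |a|) (hs : 0 < s) (hs1 : s ≤ 1) (hR : (10 * |a|) ^ 5 * s ≤ R)
    (b0 b1 b2 b3 b4 : ℝ) (z : TT) {y1 y2 y3 y4 y5 : UnitAddCircle} (h1 : y1 = cen a b0 z) (h2 : y2 = cen a b1 (y1, z.1))
    (h3 : y3 = cen a b2 (y2, y1)) (h4 : y4 = cen a b3 (y3, y2)) (h5 : y5 = cen a b4 (y4, y3))
    {Φ : UnitAddCircle → UnitAddCircle → UnitAddCircle → UnitAddCircle → UnitAddCircle → ℝ≥0∞}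
    (hΦ : Measurable fun p : UnitAddCircle × UnitAddCircle × UnitAddCircle × UnitAddCircle × UnitAddCircle =>
      Φ p.1 p.2.1 p.2.2.1 p.2.2.2.1 p.2.2.2.2) :
    ∫⁻ u0 in Ioc (0 : ℝ) 1, ∫⁻ u1 in Ioc (0 : ℝ) 1, ∫⁻ u2 in Ioc (0 : ℝ) 1, ∫⁻ u3 in Ioc (0 : ℝ) 1, ∫⁻ u4 in Ioc (0 : ℝ) 1,
      Φ (stp (a, b0 + s * u0) z).1
        (stp (a, b1 + s * u1) (stp (a, b0 + s * u0) z)).1
        (stp (a, b2 + s * u2) (stp (a, b1 + s * u1) (stp (a, b0 + s * u0) z))).1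
        (stp (a, b3 + s * u3) (stp (a, b2 + s * u2) (stp (a, b1 + s * u1) (stp (a, b0 + s * u0) z)))).1
        (stp (a, b4 + s * u4) (stp (a, b3 + s * u3) (stp (a, b2 + s * u2) (stp (a, b1 + s * u1) (stp (a, b0 + s * u0) z))))).1 ≤
      ENNReal.ofReal s⁻¹ ^ 5 * ∫⁻ x1 in Metric.closedBall y1 R, ∫⁻ x2 in Metric.closedBall y2 R,
        ∫⁻ x3 in Metric.closedBall y3 R, ∫⁻ x4 in Metric.closedBall y4 R, ∫⁻ x5 in Metric.closedBall y5 R, Φ x1 x2 x3 x4 x5 := by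
  refine le_trans (le_of_eq ?_) (five_aux ha hs hs1 hR b0 b1 b2 b3 b4 z h1 h2 h3 h4 h5 hΦ)
  simp only [stp_eq68]
  rfl

end Pool.Agent.Helper68.AF
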