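import Pool.Agent.Helper68.AF.Cos

/-! Project AF (MP_9ee088_an): moments of the reciprocal of an entry of a product of three matrices. -/

set_option autoImplicit false
open MeasureTheory Real Set
open scoped ENNReal

namespace Pool.Agent.Helper68.AF

open Pool.Agent.Helper46.QP (TT Td orb Mx va stp ee)

/-- the entry `<e, M(d₃) M(d₂) M(d₁) v>`, `M(d) = !![d, -1; 1, 0]` -/
def f3 (e1 e2 v1 v2 d1 d2 d3 : ℝ) : ℝ :=
  d2 * ((e1 * d3 + e2) * (v1 * d1 - v2)) - e1 * v1 * (d1 + d3) + e1 * v2 - e2 * v1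

theorem f3_eq (e1 e2 v1 v2 d1 d2 d3 : ℝ) :
    f3 e1 e2 v1 v2 d1 d2 d3 = ![e1, e2] ⬝ᵥ (!![d3, -1; 1, 0] * !![d2, -1; 1, 0] * !![d1, -1; 1, 0]).mulVec ![v1, v2] := by
  unfold f3
  simp [Matrix.mulVec, dotProduct, Fin.sum_univ_two, Matrix.mul_apply]
  ring

theorem va_re68 (a : ℝ) (x : UnitAddCircle) : va ((a : ℝ) : ℂ) x = 2 + 2 * π * (a * (ee x).re) := by
  unfold va
  rw [Complex.re_ofReal_mul]

theorem va_meas68 (a : ℝ) : Measurable fun x : UnitAddCircle => va ((a : ℝ) : ℂ) x := by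
  simp only [va_re68]
  have h := meas68 a 0
  simp only [add_zero] at h
  exact (h.const_mul (2 * π)).const_add 2

private theorem one68 {a v1 v2 : ℝ} (ha : 1 ≤ |a|) (hv : 1 / 2 ≤ |v1| ∨ 1 / 2 ≤ |v2|) :
    (∫⁻ x : UnitAddCircle, ENNReal.ofReal (|v1 * va ((a : ℝ) : ℂ) x - v2| ^ (-(1 / 4 : ℝ))) ≤ ENNReal.ofReal 10) ∧
    ∀ᵐ x : UnitAddCircle, v1 * va ((a : ℝ) : ℂ) x - v2 ≠ 0 := by
  have hπ := Real.pi_gt_three
  have e : ∀ x : UnitAddCircle, v1 * va ((a : ℝ) : ℂ) x - v2 = (2 * π * a * v1) * (ee x).re + (2 * v1 - v2) := by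
    intro x
    rw [va_re68]
    ring
  have hm : (1 / 8 : ℝ) ≤ |2 * π * a * v1| ∨ (1 / 8 : ℝ) ≤ |2 * v1 - v2| := by
    by_cases h : 1 / 8 ≤ |v1|
    · left
      rw [abs_mul, abs_mul, abs_of_pos (by positivity : 0 < 2 * π)]
      have h1 : 1 * 1 ≤ 2 * π * |a| := mul_le_mul (by linarith) ha (by norm_num) (by positivity)
      calc (1 / 8 : ℝ) ≤ 1 * |v1| := by linarith
        _ ≤ 2 * π * |a| * |v1| := mul_le_mul_of_nonneg_right (by linarith) (abs_nonneg _)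
    · right
      have h := not_le.1 h
      have h2 : 1 / 2 ≤ |v2| := by
        rcases hv with h3 | h3
        · linarith
        · exact h3
      have h3 : |v2| - |2 * v1| ≤ |2 * v1 - v2| := by
        rw [abs_sub_comm]
        exact abs_sub_abs_le_abs_sub _ _
      rw [abs_mul, abs_of_pos (by norm_num : (0:ℝ) < 2)] at h3
      linarith
  constructor
  · have h1 := mom68 (by norm_num : (0:ℝ) < 1 / 8) hm
    simp only [e]
    refine h1.trans (ENNReal.ofReal_le_ofReal ?_)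
    have h2 : (1 / 8 : ℝ) ^ (-(1 / 4 : ℝ)) ≤ 2 := by
      have h3 : ((1 / 8 : ℝ) ^ (-(1 / 4 : ℝ))) = (8:ℝ) ^ (1 / 4 : ℝ) := by
        rw [one_div, Real.inv_rpow (by norm_num), Real.rpow_neg (by norm_num), inv_inv]
      rw [h3]
      have h4 : (8:ℝ) ^ (1 / 4 : ℝ) ≤ (16:ℝ) ^ (1 / 4 : ℝ) := Real.rpow_le_rpow (by norm_num) (by norm_num) (by norm_num)
      refine h4.trans (le_of_eq ?_)
      rw [show (16:ℝ) = 2 ^ (4:ℝ) by norm_num, ← Real.rpow_mul (by norm_num)]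
      norm_num
    linarith
  · have h1 := sub2_68 (t := 0) (by norm_num : (0:ℝ) < 1 / 8) hm le_rfl
    rw [Real.sqrt_zero, mul_zero, mul_zero, ENNReal.ofReal_zero, nonpos_iff_eq_zero] at h1
    rw [ae_iff]
    refine measure_mono_null ?_ h1
    intro x hx
    rw [mem_ofPred_eq, not_not, e] at hx
    rw [mem_ofPred_eq, hx]
    simp

/-- the moment of the entry; order of integration `x₁, x₃, x₂` -/
theorem tri_mom132 {a e1 e2 v1 v2 : ℝ} (ha : 1 ≤ |a|) (he : 1 / 2 ≤ |e1| ∨ 1 / 2 ≤ |e2|)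
    (hv : 1 / 2 ≤ |v1| ∨ 1 / 2 ≤ |v2|) :
    ∫⁻ x1 : UnitAddCircle, ∫⁻ x3 : UnitAddCircle, ∫⁻ x2 : UnitAddCircle,
      ENNReal.ofReal (|f3 e1 e2 v1 v2 (va ((a : ℝ) : ℂ) x1) (va ((a : ℝ) : ℂ) x2) (va ((a : ℝ) : ℂ) x3)| ^ (-(1 / 4 : ℝ)))
        ≤ ENNReal.ofReal (500 * |a| ^ (-(1 / 4 : ℝ))) := by
  have hπ := Real.pi_gt_three
  have ha0 : 0 < |a| := by linarith
  obtain ⟨m1, n1⟩ := one68 (v1 := v1) (v2 := v2) ha hv
  have he' : 1 / 2 ≤ |e1| ∨ 1 / 2 ≤ |-e2| := by rwa [abs_neg]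
  obtain ⟨m3, n3⟩ := one68 (v1 := e1) (v2 := -e2) ha he'
  have key : ∀ᵐ x1 : UnitAddCircle, ∀ᵐ x3 : UnitAddCircle, ∫⁻ x2 : UnitAddCircle,
      ENNReal.ofReal (|f3 e1 e2 v1 v2 (va ((a : ℝ) : ℂ) x1) (va ((a : ℝ) : ℂ) x2) (va ((a : ℝ) : ℂ) x3)| ^ (-(1 / 4 : ℝ)))
        ≤ ENNReal.ofReal (|v1 * va ((a : ℝ) : ℂ) x1 - v2| ^ (-(1 / 4 : ℝ))) *
          (ENNReal.ofReal (|e1 * va ((a : ℝ) : ℂ) x3 - -e2| ^ (-(1 / 4 : ℝ))) * ENNReal.ofReal (5 * |a| ^ (-(1 / 4 : ℝ)))) := by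
    filter_upwards [n1] with x1 h1
    filter_upwards [n3] with x3 h3
    set d1 := va ((a : ℝ) : ℂ) x1 with hd1
    set d3 := va ((a : ℝ) : ℂ) x3 with hd3
    set P : ℝ := (e1 * d3 - -e2) * (v1 * d1 - v2) with hP
    have hP0 : P ≠ 0 := mul_ne_zero h3 h1
    have hP1 : 0 < |P| := abs_pos.2 hP0
    have e : ∀ x2 : UnitAddCircle, f3 e1 e2 v1 v2 d1 (va ((a : ℝ) : ℂ) x2) d3 =
        (2 * π * a * P) * (ee x2).re + (2 * P - e1 * v1 * (d1 + d3) + e1 * v2 - e2 * v1) := by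
      intro x2
      rw [va_re68, hP]
      unfold f3
      ring
    have hm : |a| * |P| ≤ |2 * π * a * P| ∨ |a| * |P| ≤ |2 * P - e1 * v1 * (d1 + d3) + e1 * v2 - e2 * v1| := by
      left
      rw [abs_mul (2 * π * a), abs_mul (2 * π), abs_of_pos (by positivity : 0 < 2 * π)]
      exact mul_le_mul_of_nonneg_right (by nlinarith) hP1.le
    have h5 := mom68 (mul_pos ha0 hP1) hm
    simp only [e]
    refine h5.trans (le_of_eq ?_)
    rw [← ENNReal.ofReal_mul (by positivity), ← ENNReal.ofReal_mul (by positivity)]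
    congr 1
    rw [hP, abs_mul, Real.mul_rpow ha0.le (by positivity), Real.mul_rpow (abs_nonneg _) (abs_nonneg _)]
    ring
  have hmeas : ∀ v1 v2 : ℝ, Measurable fun x : UnitAddCircle => ENNReal.ofReal (|v1 * va ((a : ℝ) : ℂ) x - v2| ^ (-(1 / 4 : ℝ))) := by
    intro v1 v2
    exact ((((va_meas68 a).const_mul v1).sub_const v2).abs.pow_const _).ennreal_ofReal
  calc ∫⁻ x1 : UnitAddCircle, ∫⁻ x3 : UnitAddCircle, ∫⁻ x2 : UnitAddCircle,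
      ENNReal.ofReal (|f3 e1 e2 v1 v2 (va ((a : ℝ) : ℂ) x1) (va ((a : ℝ) : ℂ) x2) (va ((a : ℝ) : ℂ) x3)| ^ (-(1 / 4 : ℝ)))
      ≤ ∫⁻ x1 : UnitAddCircle, ∫⁻ x3 : UnitAddCircle, ENNReal.ofReal (|v1 * va ((a : ℝ) : ℂ) x1 - v2| ^ (-(1 / 4 : ℝ))) *
          (ENNReal.ofReal (|e1 * va ((a : ℝ) : ℂ) x3 - -e2| ^ (-(1 / 4 : ℝ))) * ENNReal.ofReal (5 * |a| ^ (-(1 / 4 : ℝ)))) := by
        refine lintegral_mono_ae ?_
        filter_upwards [key] with x1 h1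
        exact lintegral_mono_ae h1
    _ = (∫⁻ x1 : UnitAddCircle, ENNReal.ofReal (|v1 * va ((a : ℝ) : ℂ) x1 - v2| ^ (-(1 / 4 : ℝ)))) *
        ((∫⁻ x3 : UnitAddCircle, ENNReal.ofReal (|e1 * va ((a : ℝ) : ℂ) x3 - -e2| ^ (-(1 / 4 : ℝ)))) *
          ENNReal.ofReal (5 * |a| ^ (-(1 / 4 : ℝ)))) := by
        rw [← lintegral_mul_const _ (hmeas v1 v2)]
        refine lintegral_congr fun x1 => ?_
        rw [lintegral_const_mul _ ((hmeas e1 (-e2)).mul_const _), lintegral_mul_const _ (hmeas e1 (-e2))]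
    _ ≤ ENNReal.ofReal 10 * (ENNReal.ofReal 10 * ENNReal.ofReal (5 * |a| ^ (-(1 / 4 : ℝ)))) := by gcongr
    _ = ENNReal.ofReal (500 * |a| ^ (-(1 / 4 : ℝ))) := by
        rw [← ENNReal.ofReal_mul (by norm_num), ← ENNReal.ofReal_mul (by norm_num)]
        congr 1
        ring

/-- the moment of the entry -/
theorem tri_mom {a e1 e2 v1 v2 : ℝ} (ha : 1 ≤ |a|) (he : 1 / 2 ≤ |e1| ∨ 1 / 2 ≤ |e2|)
    (hv : 1 / 2 ≤ |v1| ∨ 1 / 2 ≤ |v2|) :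
    ∫⁻ x1 : UnitAddCircle, ∫⁻ x2 : UnitAddCircle, ∫⁻ x3 : UnitAddCircle,
      ENNReal.ofReal (|f3 e1 e2 v1 v2 (va ((a : ℝ) : ℂ) x1) (va ((a : ℝ) : ℂ) x2) (va ((a : ℝ) : ℂ) x3)| ^ (-(1 / 4 : ℝ)))
        ≤ ENNReal.ofReal (500 * |a| ^ (-(1 / 4 : ℝ))) := by
  refine le_trans (le_of_eq ?_) (tri_mom132 ha he hv)
  refine lintegral_congr fun x1 => ?_
  refine lintegral_lintegral_swap ?_
  have h2 : Measurable fun p : UnitAddCircle × UnitAddCircle => va ((a : ℝ) : ℂ) p.1 := (va_meas68 a).comp measurable_fst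
  have h3 : Measurable fun p : UnitAddCircle × UnitAddCircle => va ((a : ℝ) : ℂ) p.2 := (va_meas68 a).comp measurable_snd
  refine Measurable.aemeasurable ?_
  show Measurable fun p : UnitAddCircle × UnitAddCircle => ENNReal.ofReal (|f3 e1 e2 v1 v2 (va ((a : ℝ) : ℂ) x1)
    (va ((a : ℝ) : ℂ) p.1) (va ((a : ℝ) : ℂ) p.2)| ^ (-(1 / 4 : ℝ)))
  unfold f3
  fun_prop

end Pool.Agent.Helper68.AF
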